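import Pool.Agent.Helper69.TC.Final

/-!
Three-colour competing growth on the square lattice with densities `p`, `p`, `c * p` of blue, red
and green seeds: for every `c > 0` the probability that the origin is eventually green converges as
`p` tends to `0` from the right.
-/

set_option autoImplicit false

open MeasureTheory Filter Topology Pool.Agent.Helper69.TC

theorem Pool.Agent.Results.MP_dea6d5_pr.LimitExists.result (c : ℝ) (hc : 0 < c) :
    ∃ l : ℝ, Tendsto (fun p : ℝ => (law p (c * p)).real {ω | EventuallyGreen ω})
      (𝓝[>] (0 : ℝ)) (𝓝 l) :=
  final hc
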